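import Pool.Agent.H2.EDV.Targets
import Pool.Agent.H4.EDA.VSF
import Pool.Agent.H65.ED.TIV
import Pool.Agent.H68.ED.LRG
import Pool.Agent.H18.TXB.Av

/-!
# Row VSB: heights in the fibres of an iterate on a totally invariant closed subset
-/

set_option autoImplicit false

open MvPolynomial
open Pool.Agent.H12.ZD (pmap)
open Pool.Agent.H18.HIT Pool.Agent.H18.HX Pool.Agent.H18.VZ
open Pool.Agent.H8.ZA (HFam Const NA)
open Pool.Agent.H8.TD (lc dg Cop)
open Pool.Agent.H8.TX (hn mxn szn)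
open Pool.Agent.H2.ED
open Pool.Agent.H18.TE (lg Gc)
open Pool.Agent.H18.TXB (avn)
open Pool.Agent.H18.EDB (dgm T_CHN T_VSB)
open Pool.Agent.H2.EDV

namespace Pool.Agent.H78.EDV

/-- the vectors which give linear forms in some of the coordinates -/
theorem lc_sum {N r : ℕ} {k M : Type} [Field k] [AddCommGroup M] [Module k M]
    (a : Fin r → Fin N) (c : Fin r → k) (η : Fin N → M) :
    lc (∑ l, c l • (Pi.single (a l) (1 : k) : Fin N → k)) η = lc c fun i => η (a i) := by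
  classical
  unfold lc
  simp only [Finset.sum_apply, Pi.smul_apply, smul_eq_mul, Finset.sum_smul]
  rw [Finset.sum_comm]
  refine Finset.sum_congr rfl fun l _ => ?_
  rw [Finset.sum_eq_single (a l)]
  · rw [Pi.single_eq_same, mul_one]
  · intro b _ hb
    rw [Pi.single_eq_of_ne hb, mul_zero, zero_smul]
  · intro h
    exact absurd (Finset.mem_univ _) h

theorem eval_eq_aeval {σ k : Type} [Field k] (x : σ → k) (q : MvPolynomial σ k) :
    eval x q = aeval x q := by
  rw [aeval_def, ← eval₂_id]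
  rfl

/-- a linear form in coordinates of a point over `K'` -/
theorem lc_map {K' : IntermediateField ℚ Qb} {N : ℕ} {s : Fin N → Qb} (hs : ∀ i, s i ∈ K')
    (σ : Qb ≃ₐ[K'] Qb) (x : Fin N → Qb) : lc s (fun i => σ (x i)) = σ (lc s x) := by
  unfold lc
  rw [map_sum]
  refine Finset.sum_congr rfl fun i _ => ?_
  rw [smul_eq_mul, smul_eq_mul, map_mul]
  congr 1
  exact (σ.commutes ⟨s i, hs i⟩).symm

theorem lc_mem {K' : IntermediateField ℚ Qb} {N : ℕ} {s : Fin N → Qb} (hs : ∀ i, s i ∈ K')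
    {L : IntermediateField K' Qb} {x : Fin N → Qb} (hx : ∀ i, x i ∈ L) : lc s x ∈ L := by
  apply sum_mem
  intro i _
  rw [smul_eq_mul]
  exact mul_mem (L.algebraMap_mem ⟨s i, hs i⟩) (hx i)

/-- the number of the roots -/
theorem card_roots {E : ℕ} (c : Fin (E + 1) → Qb) (h0 : c 0 ≠ 0) (Z : Finset Qb)
    (hZ : ∀ z ∈ Z, ∑ j : Fin (E + 1), c j * z ^ (E - (j : ℕ)) = 0) : Z.card ≤ E := by
  classical
  obtain ⟨p, hp⟩ : ∃ p : Polynomial Qb, p = ∑ j : Fin (E + 1), Polynomial.C (c j) *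
    Polynomial.X ^ (E - (j : ℕ)) := ⟨_, rfl⟩
  have hc : p.coeff E = c 0 := by
    rw [hp, Polynomial.finsetSum_coeff, Finset.sum_eq_single 0]
    · rw [Polynomial.coeff_C_mul, Polynomial.coeff_X_pow, if_pos (by simp), mul_one]
    · intro j _ hj
      rw [Polynomial.coeff_C_mul, Polynomial.coeff_X_pow, if_neg, mul_zero]
      have h1 : (j : ℕ) ≠ 0 := fun h => hj (Fin.ext h)
      have h2 := j.2
      omega
    · intro h
      exact absurd (Finset.mem_univ _) h
  have hp0 : p ≠ 0 := by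
    intro h
    rw [h, Polynomial.coeff_zero] at hc
    exact h0 hc.symm
  have hdeg : p.natDegree ≤ E := by
    rw [hp]
    refine Polynomial.natDegree_sum_le_of_forall_le _ _ fun j _ => ?_
    exact (Polynomial.natDegree_C_mul_X_pow_le _ _).trans (Nat.sub_le _ _)
  have hsub : Z ⊆ p.roots.toFinset := by
    intro z hz
    rw [Multiset.mem_toFinset, Polynomial.mem_roots hp0, Polynomial.IsRoot, hp,
      Polynomial.eval_finsetSum]
    rw [← hZ z hz]
    refine Finset.sum_congr rfl fun j _ => ?_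
    rw [Polynomial.eval_mul, Polynomial.eval_C, Polynomial.eval_pow, Polynomial.eval_X]
  exact (Finset.card_le_card hsub).trans ((Multiset.toFinset_card_le _).trans
    ((Polynomial.card_roots' p).trans hdeg))

/-- the heights of one linear form in the points of the fibre -/
theorem fibj (hCHN : Pool.Agent.H18.EDB.T_CHN) (hVDE : T_VDE) (hVID : T_VID) (hVSE : T_VSE) (hVHT : T_VHT)
    {ν r D n M : ℕ} {κ : Type} [Field κ] [Algebra Qb κ] {V : Ideal (Po (ν + 2) Qb)}
    {G : Tup (ν + 2) Qb} {η : Fin (ν + 2) → κ} {τV : κ →ₐ[Qb] κ} (hr : 1 ≤ r)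
    (h : Fv V r G η τV) (hV : V.IsPrime) (hH : Hmi V) (hG : ∀ i, (G i).IsHomogeneous D)
    (hinv : ∀ q, aeval G q ∈ V ↔ q ∈ V) (a : Fin r → Fin (ν + 2))
    (ha : AlgebraicIndependent Qb fun i => η (a i))
    (hμ : AlgebraicIndependent Qb fun i => τV^[n] (η (a i)))
    (hdg : 1 ≤ dg Qb (Set.range fun i => τV^[n] (η (a i)))) (s : Fin (ν + 2) → Qb)
    (hs : IntermediateField.adjoin (IntermediateField.adjoin Qb
      (Set.range fun i => τV^[n] (η (a i)))) {lc s η} = ⊤)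
    (hM : ∀ t : Fin (r - 1) → Fin (ν + 2) → Qb,
      dg Qb (insert (lc s η) (Set.range fun i => lc (t i) fun j => τV^[n] (η j))) ≤ M) :
    ∃ (q : Po (ν + 2) Qb) (A : Finset Qb) (E : ℕ), aeval η q ≠ 0 ∧ (∀ i, s i ∈ A) ∧
      ∀ (K' : IntermediateField ℚ Qb) (F' : HFam K'), (∀ b ∈ A, b ∈ K') → ∃ c : ℝ,
        ∀ (Γ : Finset (Qb ≃ₐ[K'] Qb)) (L : IntermediateField K' Qb), Gc K' Γ L →
        ∀ y : Fin (ν + 2) → Qb, (∀ i, y i ∈ L) → y 1 ≠ 0 → eval (af y) q ≠ 0 →
          ∀ S : Finset (Fin (ν + 2) → Qb),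
          (∀ x ∈ S, (∀ i, x i ∈ L) ∧ (∀ p ∈ V, eval x p = 0) ∧ x 1 = 1 ∧
            (pmap G)^[n] x 1 ≠ 0 ∧ af ((pmap G)^[n] x) = af y) →
          S.card ≤ E ∧ ∑ x ∈ S, avn F' Γ ![lc s x] ≤ M * avn F' Γ (af y) + Γ.card * c := by
  classical
  obtain ⟨μ, hμd⟩ : ∃ μ : Fin r → κ, μ = fun i => τV^[n] (η (a i)) := ⟨_, rfl⟩
  have hfin : FiniteDimensional (IntermediateField.adjoin Qb
      (Set.range fun i => τV^[n] (η (a i)))) κ := Module.finite_of_finrank_pos hdg
  obtain ⟨q₀, hq₀, hsep⟩ := hVSE ν r D n Qb κ V G η τV a s hG hV hH hinv h hfin hs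
  rw [← hμd] at hμ hdg hfin
  have halg : Algebra.IsAlgebraic (IntermediateField.adjoin Qb (Set.range μ)) κ :=
    Algebra.IsAlgebraic.of_finite _ _
  obtain ⟨E, Y, Cf, hE, hhom, -, hC0, hirr, hrel, -, s', hs'⟩ :=
    hCHN r Qb κ μ (lc s η) hr h.gv.trd halg
  have hEd : E ≤ dg Qb (Set.range μ) :=
    hVDE r E Y Qb κ μ _ Cf hμ hfin hhom hC0 hirr hrel
  have hYM : Y ≤ M := by
    have h1 := hM (fun i => ∑ l, s' i l • Pi.single (a l) (1 : Qb))
    have h2 : (fun i : Fin (r - 1) => lc (∑ l, s' i l • (Pi.single (a l) (1 : Qb) :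
        Fin (ν + 2) → Qb)) fun j => τV^[n] (η j)) = fun i => lc (s' i) μ := by
      funext i
      rw [lc_sum, hμd]
    rw [h2] at h1
    exact Nat.le_of_mul_le_mul_right (hs'.trans (Nat.mul_le_mul h1 hEd)) hdg
  -- the polynomial
  obtain ⟨U, hU⟩ : ∃ U : Fin (r + 1) → Po (ν + 2) Qb, U = Fin.cons 1 (fun i => X (a i)) :=
    ⟨_, rfl⟩
  have hUη : ∀ q : Po (r + 1) Qb, aeval η (aeval U q) =
      aeval (Fin.cons 1 (fun i => η (a i)) : Fin (r + 1) → κ) q := by
    intro q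
    rw [← AlgHom.comp_apply, comp_aeval]
    congr 2
    funext i
    refine Fin.cases ?_ (fun i => ?_) i
    · rw [hU, Fin.cons_zero, Fin.cons_zero, map_one]
    · rw [hU, Fin.cons_succ, Fin.cons_succ, aeval_X]
  have hUe : ∀ (x : Fin (ν + 2) → Qb) (q : Po (r + 1) Qb), eval x (aeval U q) =
      eval (Fin.cons 1 (fun i => x (a i)) : Fin (r + 1) → Qb) q := by
    intro x q
    rw [eval_eq_aeval, eval_eq_aeval, ← AlgHom.comp_apply, comp_aeval]
    congr 2
    funext i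
    refine Fin.cases ?_ (fun i => ?_) i
    · rw [hU, Fin.cons_zero, Fin.cons_zero, map_one]
    · rw [hU, Fin.cons_succ, Fin.cons_succ, aeval_X]
  refine ⟨q₀ * aeval U (Cf 0), (Finset.univ.biUnion fun l => (Cf l).coeffs) ∪
    Finset.univ.image s, E, ?_, ?_, ?_⟩
  · rw [map_mul]
    refine mul_ne_zero hq₀ ?_
    rw [hUη]
    exact Pool.Agent.H4.EDA.cons_ne ha (hhom 0) hC0
  · intro i
    exact Finset.mem_union_right _ (Finset.mem_image_of_mem _ (Finset.mem_univ i))
  intro K' F' hA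
  have hsK : ∀ i, s i ∈ K' := fun i =>
    hA _ (Finset.mem_union_right _ (Finset.mem_image_of_mem _ (Finset.mem_univ i)))
  obtain ⟨c, hc⟩ := hVHT r E Y Cf hhom K' F' fun l b hb =>
    hA b (Finset.mem_union_left _ (Finset.mem_biUnion.2 ⟨l, Finset.mem_univ l, hb⟩))
  refine ⟨c, fun Γ L hΓ y hyL hy1 hyq S hS => ?_⟩
  rw [map_mul] at hyq
  have hyq1 : eval (af y) q₀ ≠ 0 := left_ne_zero_of_mul hyq
  have hyq2 : eval (Fin.cons 1 (fun i => af y (a i)) : Fin (r + 1) → Qb) (Cf 0) ≠ 0 := by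
    rw [← hUe]
    exact right_ne_zero_of_mul hyq
  have hroot : ∀ x ∈ S, ∑ l : Fin (E + 1),
      eval (Fin.cons 1 (fun i => af y (a i)) : Fin (r + 1) → Qb) (Cf l) *
        lc s x ^ (E - (l : ℕ)) = 0 := by
    intro x hx
    obtain ⟨-, hxV, hx1, hxn, hxy⟩ := hS x hx
    obtain ⟨W, hW⟩ : ∃ W : Fin (r + 1) → MvPolynomial (Fin (ν + 2) ⊕ Fin (ν + 2)) Qb,
      W = Fin.cons 1 (fun i => X (Sum.inr (a i))) := ⟨_, rfl⟩
    obtain ⟨Q, hQ⟩ : ∃ Q : MvPolynomial (Fin (ν + 2) ⊕ Fin (ν + 2)) Qb,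
      Q = ∑ l : Fin (E + 1), aeval W (Cf l) *
        (∑ i, C (s i) * X (Sum.inl i)) ^ (E - (l : ℕ)) := ⟨_, rfl⟩
    have e1 : ∀ {B : Type} [Field B] [Algebra Qb B] (u w : Fin (ν + 2) → B),
        aeval (Sum.elim u w) Q = ∑ l : Fin (E + 1),
          aeval (Fin.cons 1 (fun i => w (a i)) : Fin (r + 1) → B) (Cf l) *
            lc s u ^ (E - (l : ℕ)) := by
      intro B _ _ u w
      rw [hQ, map_sum]
      refine Finset.sum_congr rfl fun l _ => ?_
      rw [map_mul, map_pow]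
      congr 1
      · rw [← AlgHom.comp_apply, comp_aeval]
        congr 2
        funext i
        refine Fin.cases ?_ (fun i => ?_) i
        · rw [hW, Fin.cons_zero, Fin.cons_zero, map_one]
        · rw [hW, Fin.cons_succ, Fin.cons_succ, aeval_X, Sum.elim_inr]
      · congr 1
        rw [map_sum]
        unfold lc
        refine Finset.sum_congr rfl fun i _ => ?_
        rw [map_mul, aeval_C, aeval_X, Sum.elim_inl, Algebra.smul_def]
    have e2 : aeval (Sum.elim η fun i => τV^[n] (η i)) Q = 0 := by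
      rw [e1, ← hμd]
      exact hrel
    have e3 := hVID ν r D n Qb κ V G η τV hG hV hH hinv h Q e2 x hxV hx1 hxn
    rw [hxy, eval_eq_aeval, e1] at e3
    rw [← e3]
    refine Finset.sum_congr rfl fun l _ => ?_
    rw [eval_eq_aeval]
  have hinj : Set.InjOn (fun x => lc s x) (S : Set (Fin (ν + 2) → Qb)) := by
    intro x hx x' hx' hxx
    obtain ⟨-, hxV, hx1, hxn, hxy⟩ := hS x hx
    obtain ⟨-, hxV', hx1', hxn', hxy'⟩ := hS x' hx'
    exact hsep x x' hxV hxV' hx1 hx1' hxn hxn' (hxy.trans hxy'.symm) (by rw [hxy]; exact hyq1) hxx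
  have hcard : S.card ≤ E := by
    rw [← Finset.card_image_of_injOn hinj]
    refine card_roots (fun l => eval (Fin.cons 1 (fun i => af y (a i)) : Fin (r + 1) → Qb) (Cf l))
      hyq2 _ fun z hz => ?_
    obtain ⟨x, hx, rfl⟩ := Finset.mem_image.1 hz
    exact hroot x hx
  refine ⟨hcard, ?_⟩
  have h1 := hc Γ L hΓ (fun i => af y (a i)) (fun i => div_mem (hyL _) (hyL _)) hyq2
    (S.image fun x => lc s x) (fun z hz => by
      obtain ⟨x, hx, rfl⟩ := Finset.mem_image.1 hz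
      exact ⟨lc_mem hsK (hS x hx).1, hroot x hx⟩)
  rw [Finset.sum_image hinj] at h1
  refine h1.trans ?_
  have h2 : avn F' Γ (fun i => af y (a i)) ≤ avn F' Γ (af y) := by
    unfold avn
    refine Finset.sum_le_sum fun σ _ => ?_
    apply Pool.Agent.H8.TX.hn_mono
    intro i
    apply Pool.Agent.H8.TX.szn_le (Pool.Agent.H8.TX.one_le_szn _ _)
    intro l
    exact Pool.Agent.H8.TX.le_szn (F'.abv i) (fun i => σ (af y i)) (a l)
  have h3 : (Y : ℝ) ≤ M := by exact_mod_cast hYM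
  have h4 : (Y : ℝ) * avn F' Γ (fun i => af y (a i)) ≤ M * avn F' Γ (af y) :=
    mul_le_mul h3 h2 (Pool.Agent.H18.TXB.avn_nonneg _ _ _) (Nat.cast_nonneg _)
  linarith

/-- heights in the fibres of an iterate on a totally invariant closed subset -/
theorem pf_VSB (hFLV : T_FLV) (hVDM : Pool.Agent.H2.ED.T_VDM) (hVPE : T_VPE) (hVDE : T_VDE) (hVDG : T_VDG)
    (hVID : T_VID) (hVSE : T_VSE) (hVHT : T_VHT) (hVLN : T_VLN)
    (hCHN : Pool.Agent.H18.EDB.T_CHN) : T_VSB := by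
  classical
  intro ν r₀ d k E P θ Δ F V K _ _ ξ τ hν hP hF hd hs hfd hk hV hH hX hPV hc hnp hinv hbas hΔ htot
    h0 hj
  have hG : ∀ i, (it F k i).IsHomogeneous (d ^ k) := it_hom hF k
  obtain ⟨r, κ, iκ, iA, η, τV, hfv⟩ := hFLV ν (d ^ k) Qb V (it F k) hV hH hX hG hinv
  have hrν : r + 2 ≤ ν := hVDM ν r₀ r Qb κ P V η hP hV hH hPV hc hnp hfv.gv
  rcases Nat.eq_zero_or_pos r with hr | hr
  · subst hr
    have h1 : Algebra.IsAlgebraic Qb κ := by
      refine trdeg_eq_zero_iff.1 ?_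
      rw [hfv.gv.trd, Nat.cast_zero]
    have h2 : ∀ i, ∃ c : Qb, algebraMap Qb κ c = η i := fun i =>
      IsAlgClosed.algebraMap_bijective_of_isIntegral.2 (η i)
    choose e he using h2
    have h3 : ∀ x : Fin (ν + 2) → Qb, (∀ q ∈ V, eval x q = 0) → x 1 = 1 → x = e := by
      intro x hx hx1
      funext i
      have h4 : X i - C (e i) * X 1 ∈ V := by
        rw [← hfv.gv.iff 1]
        · rw [map_sub, map_mul, aeval_X, aeval_X, aeval_C, he, hfv.gv.one, mul_one, sub_self]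
        · refine IsHomogeneous.sub (isHomogeneous_X _ _) ?_
          have := (isHomogeneous_C (Fin (ν + 2)) (e i)).mul (isHomogeneous_X Qb (1 : Fin (ν + 2)))
          rwa [zero_add] at this
      have h5 := hx _ h4
      rw [map_sub, map_mul, eval_X, eval_X, eval_C, sub_eq_zero, hx1, mul_one] at h5
      exact h5
    refine ⟨0, fun n B _ => ⟨1, Finset.univ.image e, ?_, fun K' F' hK' =>
      ⟨hn F' e, fun Γ L _ y _ _ _ _ S hS => ?_⟩⟩⟩
    · exact (Ideal.ne_top_iff_one V).1 hV.ne_top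
    · have h6 : S ⊆ {e} := by
        intro x hx
        rw [Finset.mem_singleton]
        exact h3 x (hS x hx).2.1 (hS x hx).2.2.1
      calc ∑ x ∈ S, avn F' Γ x ≤ ∑ x ∈ ({e} : Finset (Fin (ν + 2) → Qb)), avn F' Γ x :=
            Finset.sum_le_sum_of_subset_of_nonneg h6 fun x _ _ =>
              Pool.Agent.H18.TXB.avn_nonneg _ _ _
        _ = avn F' Γ e := Finset.sum_singleton _ _
        _ = Γ.card * hn F' e := Pool.Agent.H18.TXB.avn_mem F' Γ fun i =>
            hK' _ (Finset.mem_image_of_mem _ (Finset.mem_univ i))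
        _ = _ := by
            rw [Nat.cast_zero, zero_mul, zero_mul, zero_add]
  · obtain ⟨C₀, hC₀⟩ := hVDG ν r₀ r d k P F V K ξ τ κ η τV hP hF hd hs hfd hk hV hH hX hPV hinv h0
      hj hfv hr hrν
    obtain ⟨a, ha, hdga⟩ := exists_coord hfv.gv
    have hfr : FiniteDimensional τV.fieldRange κ :=
      Pool.Agent.H65.ED.fin_range η hfv.gv.top τV r hfv.gv.trd
    refine ⟨(ν + 2) * C₀, fun n B hB => ?_⟩
    obtain ⟨hμ, hdg⟩ := deg_iter (l := n) (e := 1) (τV := τV) Module.finrank_pos ha hdga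
    rw [one_pow] at hdg
    have hfin : FiniteDimensional (IntermediateField.adjoin Qb
        (Set.range fun i => τV^[n] (η (a i)))) κ := Module.finite_of_finrank_pos hdg
    obtain ⟨s, hdet, hgen⟩ := hVPE (ν + 2) Qb κ (IntermediateField.adjoin Qb
      (Set.range fun i => τV^[n] (η (a i)))) η hfv.gv.top hfin
    have h1 := fun j => fibj hCHN hVDE hVID hVSE hVHT (n := n) (M := C₀ * B) hr hfv hV hH hG hinv a
      ha hμ hdg (s j) (hgen j) ((hC₀ n B).1 hB (s j))
    choose q A E₁ hq hsA hcore using h1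
    obtain ⟨u, hu⟩ : ∃ u : Po (ν + 2) Qb, u = Pool.Agent.H68.ED.hmg (∏ j, q j) := ⟨_, rfl⟩
    have huh : u.IsHomogeneous (∏ j, q j).totalDegree := by
      rw [hu]
      exact Pool.Agent.H68.ED.hmg_hom _
    refine ⟨u, Finset.univ.biUnion A, ?_, ?_⟩
    · rw [← hfv.gv.iff _ u huh, hu, Pool.Agent.H68.ED.hmg_aeval _ _ hfv.gv.one, map_prod]
      exact Finset.prod_ne_zero_iff.2 fun j _ => hq j
    intro K' F' hK'
    have hK'' : ∀ j, ∀ b ∈ A j, b ∈ K' := fun j b hb =>
      hK' b (Finset.mem_biUnion.2 ⟨j, Finset.mem_univ j, hb⟩)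
    have h2 := fun j => hcore j K' F' (hK'' j)
    choose c hcj using h2
    obtain ⟨c₁, hc₁⟩ := hVLN (ν + 2) s hdet K' F'
    refine ⟨∑ j, c j + E₁ 0 * |c₁|, fun Γ L hΓ y hyL hyV hy1 hyu S hS => ?_⟩
    have hyq : ∀ j, eval (af y) (q j) ≠ 0 := by
      intro j hj0
      apply hyu
      have e1 : eval (af y) u = 0 := by
        rw [eval_eq_aeval, hu, Pool.Agent.H68.ED.hmg_aeval _ _ (div_self hy1), ← eval_eq_aeval,
          map_prod]
        exact Finset.prod_eq_zero (Finset.mem_univ j) hj0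
      have e2 : y = fun i => y 1 * af y i := by
        funext i
        rw [af, mul_div_cancel₀ _ hy1]
      rw [e2, eval_smul_of_hom huh, e1, mul_zero]
    have h3 := fun j => hcj j Γ L hΓ y hyL hy1 (hyq j) S hS
    have hcard : (S.card : ℝ) ≤ E₁ 0 := by exact_mod_cast (h3 0).1
    have hΓ0 : (0 : ℝ) ≤ Γ.card := Nat.cast_nonneg _
    have h4 : ∀ x, avn F' Γ x ≤ ∑ j, avn F' Γ ![lc (s j) x] + Γ.card * |c₁| := by
      intro x
      unfold avn
      rw [Finset.sum_comm, ← nsmul_eq_mul, ← Finset.sum_const, ← Finset.sum_add_distrib]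
      refine Finset.sum_le_sum fun σ _ => ?_
      have h5 := hc₁ fun i => σ (x i)
      have h6 : ∀ j, hn F' ![lc (s j) fun i => σ (x i)] =
          hn F' fun i => σ ((![lc (s j) x] : Fin 1 → Qb) i) := by
        intro j
        congr 1
        funext i
        rw [lc_map (fun i => hK'' j _ (hsA j i))]
        fin_cases i
        rfl
      rw [Finset.sum_congr rfl fun j _ => h6 j] at h5
      exact h5.trans (by linarith [le_abs_self c₁])
    calc ∑ x ∈ S, avn F' Γ x ≤ ∑ x ∈ S, (∑ j, avn F' Γ ![lc (s j) x] + Γ.card * |c₁|) :=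
          Finset.sum_le_sum fun x _ => h4 x
      _ = ∑ j, ∑ x ∈ S, avn F' Γ ![lc (s j) x] + S.card * (Γ.card * |c₁|) := by
          rw [Finset.sum_add_distrib, Finset.sum_comm, Finset.sum_const, nsmul_eq_mul]
      _ ≤ ∑ j, (((C₀ * B : ℕ) : ℝ) * avn F' Γ (af y) + Γ.card * c j) +
            E₁ 0 * (Γ.card * |c₁|) := by
          refine add_le_add (Finset.sum_le_sum fun j _ => (h3 j).2) ?_
          exact mul_le_mul_of_nonneg_right hcard (mul_nonneg hΓ0 (abs_nonneg _))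
      _ = _ := by
          rw [Finset.sum_add_distrib, Finset.sum_const, Finset.card_univ, Fintype.card_fin,
            nsmul_eq_mul, ← Finset.mul_sum]
          push_cast
          ring

end Pool.Agent.H78.EDV
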